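import Pool.Agent.Q283.GrowthTree
import Pool.Agent.Q283.YFWords

/-!
# MP_ac28de: the automorphism group of the tree of Young-Fibonacci paths
-/

namespace Pool.Agent.Results.MP_ac28de_co.Automorphisms

open Pool.Agent.Q283.GrowthTree Pool.Agent.Q283.YFWords

/-- `x ⋖ y₁ ⋖ y₂ ⋖ …` -/
def Saturated : List Bool → List (List Bool) → Prop
  | _, [] => True
  | x, y :: L => Cov x y ∧ Saturated y L

/-- A vertex of `T`: a saturated chain `∅ = x₀ ⋖ x₁ ⋖ ⋯ ⋖ x_n`, given by the list
`x₁, …, x_n`. -/
def IsVertex (L : List (List Bool)) : Prop := Saturated [] L

/-- The tree `T`: a chain is joined to the chain obtained by deleting its last member. -/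
def tree : SimpleGraph {L : List (List Bool) // IsVertex L} := graph IsVertex

/-- the last word `x_n` of the chain `∅ = x₀ ⋖ ⋯ ⋖ x_n` -/
def last (L : List (List Bool)) : List Bool := L.getLastD []

/-- The vertices whose last word is `2^j 1` for some `j ≥ 0`. -/
abbrev Switch : Type := {C : {L : List (List Bool) // IsVertex L} // Special (last C.1)}

open scoped Classical in
/-- Read a chain from the bottom. The boolean `s` says whether the current word has to be
toggled (a final `2` exchanged with a final `11`); after a word `2^j 1` the new value of `s` is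
the value of `σ` at the part of the chain read so far, and otherwise `s` does not change. -/
noncomputable def act (σ : List (List Bool) → Bool) :
    List (List Bool) → Bool → List (List Bool) → List (List Bool)
  | _, _, [] => []
  | pre, s, x :: L => tog s x :: act σ (pre ++ [x]) (if Special x then σ (pre ++ [x]) else s) L

open scoped Classical in
/-- extend a function on `Switch` by `false` -/
noncomputable def extend (σ : Switch → Bool) (L : List (List Bool)) : Bool :=
  if h : ∃ _ : IsVertex L, Special (last L) then σ ⟨⟨L, h.1⟩, h.2⟩ else false

/-- The map on chains determined by `σ : Switch → Bool`: the word `x_i` is toggled if and only if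
`σ` is `true` at the chain `∅ ⋖ x₁ ⋖ ⋯ ⋖ x_p`, where `p < i` is the largest index below `i` such
that `x_p` is of the form `2^j 1`. -/
noncomputable def switchMap (σ : Switch → Bool) (L : List (List Bool)) : List (List Bool) :=
  act (extend σ) [] false L

open scoped Classical in
/-- the state after reading a chain -/
noncomputable def st (σ : List (List Bool) → Bool) :
    List (List Bool) → Bool → List (List Bool) → Bool
  | _, s, [] => s
  | pre, s, x :: L => st σ (pre ++ [x]) (if Special x then σ (pre ++ [x]) else s) L

theorem act_append (σ : List (List Bool) → Bool) (L : List (List Bool)) (x : List Bool) :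
    ∀ (pre : List (List Bool)) (s : Bool),
      act σ pre s (L ++ [x]) = act σ pre s L ++ [tog (st σ pre s L) x] := by
  induction L with
  | nil => intro pre s; rfl
  | cons y L ih =>
    intro pre s
    simp only [List.cons_append, act, st, ih]

open scoped Classical in
theorem st_append (σ : List (List Bool) → Bool) (L : List (List Bool)) (x : List Bool) :
    ∀ (pre : List (List Bool)) (s : Bool),
      st σ pre s (L ++ [x]) = if Special x then σ (pre ++ L ++ [x]) else st σ pre s L := by
  induction L with
  | nil => intro pre s; simp [st]
  | cons y L ih =>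
    intro pre s
    simp only [List.cons_append, st, ih]
    simp

theorem last_append (L : List (List Bool)) (x : List Bool) : last (L ++ [x]) = x := by
  unfold last
  rw [List.getLastD_concat]

theorem isVertex_append {L : List (List Bool)} {y : List Bool} :
    IsVertex (L ++ [y]) ↔ IsVertex L ∧ Cov (last L) y := by
  have key : ∀ (L : List (List Bool)) (x : List Bool),
      Saturated x (L ++ [y]) ↔ Saturated x L ∧ Cov (L.getLastD x) y := by
    intro L
    induction L with
    | nil => intro x; simp [Saturated]
    | cons z L ih =>
      intro x
      rw [List.cons_append]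
      simp only [Saturated, ih]
      cases L with
      | nil => simp [Saturated]
      | cons w L => simp [List.getLastD, and_assoc]
  exact key L []

theorem cov_nil {y : List Bool} (h : Cov [] y) : y = [false] := by
  obtain ⟨a, ha, rfl⟩ := (cov_iff_two 0 y).mp h
  have : a = 0 := by omega
  subst this
  rfl

theorem exists_cov (x : List Bool) : ∃ y, Cov x y := ⟨false :: x, Or.inl ⟨0, x, rfl, rfl⟩⟩

theorem isTree : IsTree IsVertex where
  nil := trivial
  init := fun T c h => (isVertex_append.mp h).1
  uniq := by
    intro a b ha hb
    rw [cov_nil ha.1, cov_nil hb.1]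
  child := fun T h => by
    obtain ⟨y, hy⟩ := exists_cov (last T)
    exact ⟨y, isVertex_append.mpr ⟨h, hy⟩⟩

/-! ### Switch maps are automorphisms -/

/-- the state relevant for the next word -/
noncomputable def state (σ : Switch → Bool) (L : List (List Bool)) : Bool :=
  st (extend σ) [] false L

theorem switchMap_append (σ : Switch → Bool) (L : List (List Bool)) (x : List Bool) :
    switchMap σ (L ++ [x]) = switchMap σ L ++ [tog (state σ L) x] := act_append _ _ _ _ _

theorem state_special (σ : Switch → Bool) {L : List (List Bool)} {x : List Bool}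
    (h : IsVertex (L ++ [x])) (hx : Special x) :
    state σ (L ++ [x]) = σ ⟨⟨L ++ [x], h⟩, by rw [last_append]; exact hx⟩ := by
  unfold state
  rw [st_append, if_pos hx, List.nil_append]
  unfold extend
  rw [dif_pos ⟨h, by rw [last_append]; exact hx⟩]

theorem state_ne (σ : Switch → Bool) {L : List (List Bool)} {x : List Bool}
    (hx : ¬ Special x) : state σ (L ++ [x]) = state σ L := by
  unfold state
  rw [st_append, if_neg hx]

theorem not_special_nil : ¬ Special [] := by
  rintro ⟨j, hj⟩
  simp at hj

theorem state_switch (σ : Switch → Bool) (C : Switch) : state σ C.1.1 = σ C := by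
  obtain ⟨⟨L, hL⟩, hC⟩ := C
  rcases List.eq_nil_or_concat L with rfl | ⟨M, x, rfl⟩
  · exact absurd hC not_special_nil
  · simp only [List.concat_eq_append] at hL hC ⊢
    have hC' : Special x := by
      have := hC
      rwa [last_append] at this
    rw [state_special σ hL hC']

/-- the last word of the image of a chain -/
theorem last_switchMap (σ : Switch → Bool) (L : List (List Bool)) :
    (Special (last L) → last (switchMap σ L) = last L) ∧
      (¬ Special (last L) → last (switchMap σ L) = tog (state σ L) (last L)) := by
  induction L using List.reverseRecOn with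
  | nil =>
    refine ⟨fun h => absurd h not_special_nil, fun _ => ?_⟩
    rfl
  | append_singleton L x _ =>
    rw [last_append, switchMap_append, last_append]
    refine ⟨fun h => tog_special h _, fun h => ?_⟩
    rw [state_ne σ h]

/-- the image of a vertex is a vertex -/
theorem isVertex_switchMap (σ : Switch → Bool) (L : List (List Bool)) :
    IsVertex L → IsVertex (switchMap σ L) := by
  induction L using List.reverseRecOn with
  | nil => exact fun _ => trivial
  | append_singleton L y ih =>
    intro h
    obtain ⟨hL, hy⟩ := isVertex_append.mp h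
    rw [switchMap_append, isVertex_append]
    refine ⟨ih hL, ?_⟩
    by_cases hs : Special (last L)
    · rw [(last_switchMap σ L).1 hs]
      exact cov_special_tog hy hs _
    · rw [(last_switchMap σ L).2 hs]
      exact cov_tog hy hs _

theorem switchMap_injective (σ : Switch → Bool) : ∀ (L M : List (List Bool)),
    switchMap σ L = switchMap σ M → L = M := by
  intro L
  induction L using List.reverseRecOn with
  | nil =>
    intro M h
    rcases List.eq_nil_or_concat M with rfl | ⟨M, x, rfl⟩
    · rfl
    · rw [List.concat_eq_append, switchMap_append] at h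
      have := congrArg List.length h
      simp [switchMap, act] at this
  | append_singleton L y ih =>
    intro M h
    rcases List.eq_nil_or_concat M with rfl | ⟨M, x, rfl⟩
    · rw [switchMap_append] at h
      have := congrArg List.length h
      simp [switchMap, act] at this
    · rw [List.concat_eq_append] at h ⊢
      rw [switchMap_append, switchMap_append] at h
      obtain ⟨h1, h2⟩ := List.append_inj' h rfl
      have h3 := ih M h1
      subst h3
      simp only [List.cons.injEq, and_true] at h2
      have h4 := congrArg (tog (state σ L)) h2
      rw [tog_tog, tog_tog] at h4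
      rw [h4]

theorem switchMap_surjective (σ : Switch → Bool) (M : List (List Bool)) :
    IsVertex M → ∃ L, IsVertex L ∧ switchMap σ L = M := by
  induction M using List.reverseRecOn with
  | nil => exact fun _ => ⟨[], trivial, rfl⟩
  | append_singleton M z ih =>
    intro h
    obtain ⟨hM, hz⟩ := isVertex_append.mp h
    obtain ⟨L, hL, rfl⟩ := ih hM
    refine ⟨L ++ [tog (state σ L) z], isVertex_append.mpr ⟨hL, ?_⟩, ?_⟩
    · by_cases hs : Special (last L)
      · rw [(last_switchMap σ L).1 hs] at hz
        exact cov_special_tog hz hs _
      · rw [(last_switchMap σ L).2 hs] at hz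
        have h1 := cov_tog hz (fun h' => hs (special_tog.mp h')) (state σ L)
        rwa [tog_tog] at h1
    · rw [switchMap_append, tog_tog]

/-- the automorphism determined by `σ` -/
noncomputable def toIso (σ : Switch → Bool) : tree ≃g tree where
  toEquiv := Equiv.ofBijective
    (fun L : {L : List (List Bool) // IsVertex L} =>
      (⟨switchMap σ L.1, isVertex_switchMap σ L.1 L.2⟩ : {L : List (List Bool) // IsVertex L}))
    ⟨fun L M h => Subtype.ext (switchMap_injective σ _ _ (congrArg Subtype.val h)),
      fun M => by
        obtain ⟨L, hL, h⟩ := switchMap_surjective σ M.1 M.2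
        exact ⟨⟨L, hL⟩, Subtype.ext h⟩⟩
  map_rel_iff' := by
    have key : ∀ L M : List (List Bool), (∃ c, switchMap σ M = switchMap σ L ++ [c]) ↔
        ∃ c, M = L ++ [c] := by
      intro L M
      constructor
      · rintro ⟨c, hc⟩
        rcases List.eq_nil_or_concat M with rfl | ⟨M, x, rfl⟩
        · have := congrArg List.length hc
          simp [switchMap, act] at this
        · rw [List.concat_eq_append] at hc ⊢
          rw [switchMap_append] at hc
          have h1 := switchMap_injective σ _ _ (List.append_inj' hc rfl).1
          exact ⟨x, by rw [h1]⟩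
      · rintro ⟨c, rfl⟩
        exact ⟨_, switchMap_append σ L c⟩
    intro L M
    exact or_congr (key L.1 M.1) (key M.1 L.1)

theorem toIso_apply (σ : Switch → Bool) (L : {L : List (List Bool) // IsVertex L}) :
    (toIso σ L).1 = switchMap σ L.1 := rfl

/-! ### Every automorphism is a switch map -/

theorem map_child (φ : tree ≃g tree) (L : {L : List (List Bool) // IsVertex L}) (y : List Bool)
    (h : IsVertex (L.1 ++ [y])) :
    ∃ d, (φ ⟨L.1 ++ [y], h⟩).1 = (φ L).1 ++ [d] := map_append isTree φ L.1 y L.2 h

/-- the relation on words induced by the automorphisms -/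
def rel (x y : List Bool) : Prop :=
  ∃ (φ : tree ≃g tree) (L : {L : List (List Bool) // IsVertex L}),
    last L.1 = x ∧ last (φ L).1 = y

theorem rel_symm {x y : List Bool} (h : rel x y) : rel y x := by
  obtain ⟨φ, T, h1, h2⟩ := h
  refine ⟨φ.symm, φ T, h2, ?_⟩
  have : φ.symm (φ T) = T := RelIso.symm_apply_apply φ T
  rw [this]
  exact h1

theorem rel_step {x y : List Bool} (h : rel x y) (c : List Bool) (hc : Cov x c) :
    ∃ d, Cov y d ∧ rel c d := by
  obtain ⟨φ, L, rfl, rfl⟩ := h
  have h1 : IsVertex (L.1 ++ [c]) := isVertex_append.mpr ⟨L.2, hc⟩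
  obtain ⟨d, hd⟩ := map_child φ L c h1
  have h2 := (φ ⟨L.1 ++ [c], h1⟩).2
  rw [hd] at h2
  exact ⟨d, (isVertex_append.mp h2).2, φ, ⟨L.1 ++ [c], h1⟩, last_append _ _, by
    rw [hd, last_append]⟩

theorem rel_deg_le {x y : List Bool} (h : rel x y) : deg x ≤ deg y := by
  obtain ⟨φ, L, rfl, rfl⟩ := h
  have hex : ∀ c ∈ {c | Cov (last L.1) c}, IsVertex (L.1 ++ [c]) := fun c hc =>
    isVertex_append.mpr ⟨L.2, hc⟩
  choose! F hF using fun (c : List Bool) (hc : c ∈ {c | Cov (last L.1) c}) =>
    map_child φ L c (hex c hc)
  refine Set.ncard_le_ncard_of_injOn F ?_ ?_ (finite_covers _)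
  · intro c hc
    have h2 := (φ ⟨L.1 ++ [c], hex c hc⟩).2
    rw [hF c hc] at h2
    exact (isVertex_append.mp h2).2
  · intro c hc d hd hcd
    have h1 := hF c hc
    have h2 := hF d hd
    rw [hcd, ← h2] at h1
    have h3 := congrArg Subtype.val (φ.injective (Subtype.ext h1))
    have h4 := (List.append_inj' h3 rfl).2
    simpa using h4

theorem rel_bisim : Bisim rel where
  deg := fun x y h => le_antisymm (rel_deg_le h) (rel_deg_le (rel_symm h))
  step := fun x y h c hc => rel_step h c hc
  step' := fun x y h d hd => by
    obtain ⟨c, hc, h1⟩ := rel_step (rel_symm h) d hd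
    exact ⟨c, hc, rel_symm h1⟩

/-- the vertex obtained from `C`, with last word `2^j 1`, by appending `2^j 11` -/
theorem child_switch (C : Switch) : IsVertex (C.1.1 ++ [last C.1.1 ++ [false]]) := by
  refine isVertex_append.mpr ⟨C.1.2, ?_⟩
  obtain ⟨j, hj⟩ := C.2
  rw [hj]
  exact Or.inl ⟨j, [false], by simp, rfl⟩

theorem toggle_child_ne {x : List Bool} (hx : Special x) :
    toggle (x ++ [false]) ≠ x ++ [false] := by
  obtain ⟨j, rfl⟩ := hx
  have e : List.replicate j true ++ [false] ++ [false] = List.replicate j true ++ [false, false] := by
    simp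
  rw [e, toggle_oneone]
  intro h
  have := congrArg List.length h
  simp at this

open scoped Classical in
/-- The set of switches of an automorphism: those `C`, with last word `2^j 1`, for which the
two children with last words `2^(j+1)` and `2^j 11` are exchanged. -/
noncomputable def portrait (φ : tree ≃g tree) (C : Switch) : Bool :=
  decide ((φ ⟨C.1.1 ++ [last C.1.1 ++ [false]], child_switch C⟩).1 ≠
    (φ C.1).1 ++ [last C.1.1 ++ [false]])

theorem tog_ne {s t : Bool} {y : List Bool} (hy : toggle y ≠ y) (h : tog s y = tog t y) :
    s = t := by
  cases s <;> cases t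
  · rfl
  · exact absurd h.symm hy
  · exact absurd h hy
  · rfl

theorem special_cov {x y : List Bool} (hx : Special x) (h : Cov x y) (hy : toggle y ≠ y) :
    y = x ++ [false] ∨ y = toggle (x ++ [false]) := by
  obtain ⟨j, rfl⟩ := hx
  have e : List.replicate j true ++ [false] ++ [false] = List.replicate j true ++ [false, false] := by
    simp
  rcases (cov_iff_one j [] y).mp h with ⟨a, ha, rfl⟩ | rfl
  · rcases Nat.lt_or_ge a j with hlt | hge
    · exfalso
      apply hy
      have e : List.replicate a true ++ false :: (List.replicate (j - a) true ++ [false]) =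
          (List.replicate a true ++ false :: List.replicate (j - a - 1) true) ++ [true, false] := by
        have : j - a = (j - a - 1) + 1 := by omega
        rw [this, rep_succ]
        simp
      rw [e, toggle_twoone]
    · have hja : a = j := by omega
      subst hja
      left
      simp
  · right
    rw [e, toggle_oneone, List.append_nil, List.replicate_succ']

theorem eq_switchMap (φ : tree ≃g tree) (L : List (List Bool)) :
    ∀ h : IsVertex L, (φ ⟨L, h⟩).1 = switchMap (portrait φ) L := by
  induction L using List.reverseRecOn with
  | nil =>
    intro h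
    exact congrArg Subtype.val (root_fixed isTree φ)
  | append_singleton L y ih =>
    intro h
    obtain ⟨hL, hy⟩ := isVertex_append.mp h
    obtain ⟨y', hy'⟩ := map_child φ ⟨L, hL⟩ y h
    have ihL := ih hL
    have hy'' : (φ ⟨L ++ [y], h⟩).1 = (φ ⟨L, hL⟩).1 ++ [y'] := hy'
    have hv := (φ ⟨L ++ [y], h⟩).2
    rw [hy''] at hv
    have hcov : Cov (last (φ ⟨L, hL⟩).1) y' := (isVertex_append.mp hv).2
    have hkin : Kin y y' := kin_of_bisim rel_bisim ⟨φ, ⟨L ++ [y], h⟩, last_append _ _, by
      rw [hy'', last_append]⟩
    obtain ⟨s, hs⟩ := hkin
    rw [hy'', switchMap_append, ← ihL]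
    congr 2
    set σ := portrait φ with hσ
    by_cases hsp : Special (last L)
    · have hst : state σ L = σ ⟨⟨L, hL⟩, hsp⟩ := state_switch σ ⟨⟨L, hL⟩, hsp⟩
      by_cases hty : toggle y = y
      · have : ∀ t, tog t y = y := fun t => by
          cases t
          · rfl
          · exact hty
        rw [hs, this, this]
      · set C : Switch := ⟨⟨L, hL⟩, hsp⟩ with hC
        have hne := toggle_child_ne hsp
        -- the image of the child `2^j 11`
        have hone : ∀ (z : List Bool) (hz : IsVertex (L ++ [z])), z = last L ++ [false] →
            (φ ⟨L ++ [z], hz⟩).1 = (φ ⟨L, hL⟩).1 ++ [tog (σ C) z] := by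
          rintro z hz rfl
          obtain ⟨z', hz'⟩ := map_child φ ⟨L, hL⟩ _ hz
          have hz'' : (φ ⟨L ++ [last L ++ [false]], hz⟩).1 = (φ ⟨L, hL⟩).1 ++ [z'] := hz'
          obtain ⟨t, ht⟩ : Kin (last L ++ [false]) z' :=
            kin_of_bisim rel_bisim ⟨φ, ⟨_, hz⟩, last_append _ _, by rw [hz'', last_append]⟩
          have hp : σ C = t := by
            rw [hσ]
            unfold portrait
            have e1 : (φ ⟨C.1.1 ++ [last C.1.1 ++ [false]], child_switch C⟩).1 =
                (φ ⟨L, hL⟩).1 ++ [z'] := hz''
            rw [e1, ht]
            cases t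
            · simp [tog, hC]
            · rw [decide_eq_true_eq]
              intro h1
              have h2 := (List.append_inj' h1 rfl).2
              simp only [List.cons.injEq, and_true] at h2
              exact hne h2
          rw [hz'', ht, hp]
        rcases special_cov hsp hy hty with h1 | h1
        · have h2 := hone y h h1
          rw [hy''] at h2
          have h3 := (List.append_inj' h2 rfl).2
          simp only [List.cons.injEq, and_true] at h3
          rw [h3, hst]
        · have hz : IsVertex (L ++ [last L ++ [false]]) := child_switch C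
          have h2 := hone _ hz rfl
          have h3 : y' ≠ tog (σ C) (last L ++ [false]) := by
            intro h4
            rw [← h4, ← hy''] at h2
            have h5 := congrArg Subtype.val (φ.injective (Subtype.ext h2))
            have h6 := (List.append_inj' h5 rfl).2
            simp only [List.cons.injEq, and_true] at h6
            exact hne (h1.symm.trans h6.symm)
          have e : ∀ t, tog t (toggle (last L ++ [false])) =
              tog (!t) (last L ++ [false]) := fun t => by
            cases t
            · rfl
            · exact toggle_toggle _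
          have hs' : y' = tog (!s) (last L ++ [false]) := by rw [hs, h1, e]
          have hsC : s = σ C := by
            rcases Bool.eq_or_eq_not s (σ C) with h5 | h5
            · exact h5
            · exfalso
              apply h3
              rw [hs', h5, Bool.not_not]
          rw [hst, ← hsC]
          exact hs
    · have hx' : last (φ ⟨L, hL⟩).1 = tog (state σ L) (last L) := by
        rw [ihL]
        exact (last_switchMap σ L).2 hsp
      rw [hx'] at hcov
      have hnsp : ¬ Special (tog (state σ L) (last L)) := fun h' => hsp (special_tog.mp h')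
      have h1 : Cov (tog (state σ L) (last L)) (tog (state σ L) y) := cov_tog hy hsp _
      by_cases hst : s = state σ L
      · rw [hs, hst]
      · have h2 : y' = toggle (tog (state σ L) y) := by
          rw [hs]
          cases s <;> cases hq : state σ L
          · exact absurd hq.symm hst
          · exact (toggle_toggle y).symm
          · rfl
          · exact absurd hq.symm hst
        rw [h2] at hcov ⊢
        exact toggle_eq_of_cov hnsp h1 hcov

theorem portrait_toIso (σ : Switch → Bool) : portrait (toIso σ) = σ := by
  funext C
  unfold portrait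
  have h1 : (toIso σ ⟨C.1.1 ++ [last C.1.1 ++ [false]], child_switch C⟩).1 =
      (toIso σ C.1).1 ++ [tog (σ C) (last C.1.1 ++ [false])] := by
    rw [toIso_apply, toIso_apply, switchMap_append, state_switch]
  rw [h1]
  cases σ C
  · simp [tog]
  · rw [decide_eq_true_eq]
    intro h2
    have h3 := (List.append_inj' h2 rfl).2
    simp only [List.cons.injEq, and_true] at h3
    exact toggle_child_ne C.2 h3

/-- Automorphisms correspond to arbitrary sets of switches. -/
noncomputable def autEquiv : (tree ≃g tree) ≃ (Switch → Bool) where
  toFun := portrait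
  invFun := toIso
  left_inv φ := by
    refine RelIso.ext fun L => Subtype.ext ?_
    rw [toIso_apply]
    exact (eq_switchMap φ L.1 L.2).symm
  right_inv := portrait_toIso

/-- An automorphism does not change a last word of the form `2^j 1`. -/
theorem last_map (φ : tree ≃g tree) (C : Switch) : last (φ C.1).1 = last C.1.1 := by
  have h1 := eq_switchMap φ C.1.1 C.1.2
  have h2 : (φ C.1).1 = switchMap (portrait φ) C.1.1 := h1
  rw [h2]
  exact (last_switchMap _ _).1 C.2

/-- **Determination of `Aut(T)`.** There is a bijection `e` between the automorphisms of `T` and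
all functions `σ : Switch → Bool` on the set of vertices whose last word is `2^j 1`, such that
(1) the automorphism `φ` maps every chain `L` to the chain `switchMap (e φ) L`;
(2) automorphisms fix the last word of every member of `Switch`, hence permute `Switch`;
(3) composition is given by `e (φ ∘ ψ) C = e ψ C + e φ (ψ C)` (addition modulo `2`). -/
theorem result : ∃ e : (tree ≃g tree) ≃ (Switch → Bool),
    (∀ (φ : tree ≃g tree) (L : {L : List (List Bool) // IsVertex L}),
      (φ L).1 = switchMap (e φ) L.1) ∧
    (∀ (φ : tree ≃g tree) (C : Switch), last (φ C.1).1 = last C.1.1) ∧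
    ∀ (φ ψ : tree ≃g tree) (C D : Switch), D.1 = ψ C.1 →
      e (ψ.trans φ) C = xor (e ψ C) (e φ D) := by
  refine ⟨autEquiv, fun φ L => eq_switchMap φ L.1 L.2, last_map, ?_⟩
  intro φ ψ C D hD
  change portrait (ψ.trans φ) C = xor (portrait ψ C) (portrait φ D)
  set y := last C.1.1 ++ [false] with hy
  have hne : toggle y ≠ y := toggle_child_ne C.2
  have h1 : (ψ ⟨C.1.1 ++ [y], child_switch C⟩).1 = (ψ C.1).1 ++ [tog (portrait ψ C) y] := by
    have e1 := eq_switchMap ψ (C.1.1 ++ [y]) (child_switch C)
    have e2 : (ψ C.1).1 = switchMap (portrait ψ) C.1.1 := eq_switchMap ψ C.1.1 C.1.2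
    rw [e1, switchMap_append, state_switch, e2]
  have h2 : (φ (ψ ⟨C.1.1 ++ [y], child_switch C⟩)).1 =
      (φ (ψ C.1)).1 ++ [tog (portrait φ D) (tog (portrait ψ C) y)] := by
    have e1 : ∀ (M : {L : List (List Bool) // IsVertex L}),
        (φ M).1 = switchMap (portrait φ) M.1 := fun M => eq_switchMap φ M.1 M.2
    rw [e1, h1, e1, switchMap_append, ← hD, state_switch]
  have h3 : ((ψ.trans φ) ⟨C.1.1 ++ [y], child_switch C⟩).1 =
      ((ψ.trans φ) C.1).1 ++ [tog (portrait (ψ.trans φ) C) y] := by
    have e1 := eq_switchMap (ψ.trans φ) (C.1.1 ++ [y]) (child_switch C)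
    have e2 : ((ψ.trans φ) C.1).1 = switchMap (portrait (ψ.trans φ)) C.1.1 :=
      eq_switchMap (ψ.trans φ) C.1.1 C.1.2
    rw [e1, switchMap_append, state_switch, e2]
  have h4 : (φ (ψ C.1)).1 ++ [tog (portrait φ D) (tog (portrait ψ C) y)] =
      (φ (ψ C.1)).1 ++ [tog (portrait (ψ.trans φ) C) y] := h2.symm.trans h3
  have h5 := (List.append_inj' h4 rfl).2
  simp only [List.cons.injEq, and_true] at h5
  have h6 : tog (portrait φ D) (tog (portrait ψ C) y) =
      tog (xor (portrait ψ C) (portrait φ D)) y := by
    cases portrait φ D <;> cases portrait ψ C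
    · rfl
    · rfl
    · rfl
    · exact toggle_toggle y
  rw [h6] at h5
  exact (tog_ne hne h5).symm

end Pool.Agent.Results.MP_ac28de_co.Automorphisms
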